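import Mathlib

/-!
# Functions with a nowhere Hölder `n`-th derivative are not algebrable, for every `n ≥ 1`

Let `n ≥ 1`, let `f` be `n` times differentiable everywhere and let `x₀` be a point near which the
`n`-th derivative of `f` is bounded; by the Baire category theorem there is such a point.  Then the
`n`-th derivative of `f ^ 2 - 2 f(x₀) f` is `2 (f - f(x₀)) f⁽ⁿ⁾ + w` with a function `w` that is
differentiable, so it is pointwise Lipschitz at `x₀`.
-/

set_option autoImplicit false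

namespace Pool.Agent.Results.MP_4d07cf_an.NotAlgebrable

open Filter Topology Set

/-- `g` is not pointwise Hölder of any exponent at any point: the upper limit of
`|g y - g x| / |y - x| ^ α` for `y → x` is infinite, for all `x` and all `α > 0`. -/
def NowhereHolder (g : ℝ → ℝ) : Prop :=
  ∀ x α : ℝ, 0 < α → ∀ C : ℝ, ∃ᶠ y in 𝓝[≠] x, C < |g y - g x| / |y - x| ^ α

/-- The functions that are `n` times differentiable at every point and whose `n`-th derivative is
nowhere Hölder. -/
def A (n : ℕ) : Set (ℝ → ℝ) :=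
  {f | (∀ k < n, Differentiable ℝ (iteratedDeriv k f)) ∧ NowhereHolder (iteratedDeriv n f)}

/-- Strong `κ`-algebrability of a set of real functions: there is a set `X` of `κ` functions such
that every nonzero polynomial without constant term in distinct elements of `X` is a nonzero
function in `S`. -/
def StronglyAlgebrable (κ : Cardinal.{0}) (S : Set (ℝ → ℝ)) : Prop :=
  ∃ X : Set (ℝ → ℝ), Cardinal.mk X = κ ∧
    ∀ k : ℕ, 1 ≤ k → ∀ y : Fin k → ℝ → ℝ, Function.Injective y → (∀ i, y i ∈ X) →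
      ∀ P : MvPolynomial (Fin k) ℝ, P ≠ 0 → MvPolynomial.constantCoeff P = 0 →
        MvPolynomial.aeval y P ≠ 0 ∧ MvPolynomial.aeval y P ∈ S

/-- The derivative of an everywhere differentiable function is bounded near some point. -/
theorem locally_bounded {g : ℝ → ℝ} (hg : Differentiable ℝ g) :
    ∃ x₀ K : ℝ, ∀ᶠ y in 𝓝 x₀, |deriv g y| ≤ K := by
  let E : ℕ → Set ℝ := fun k =>
    ⋂ y : ℝ, ({x | 1 / ((k : ℝ) + 1) ≤ |y - x|} ∪ {x | |g y - g x| ≤ k * |y - x|})
  have hc : ∀ k, IsClosed (E k) := fun k => isClosed_iInter fun y =>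
    (isClosed_le continuous_const (by fun_prop)).union
      (isClosed_le ((continuous_const.sub hg.continuous).abs) (by fun_prop))
  have hU : ⋃ k, E k = univ := by
    refine eq_univ_of_forall fun x => ?_
    have h1 := (hg x).hasDerivAt.isBigO_sub
    obtain ⟨c, hc'⟩ := h1.bound
    obtain ⟨δ, hδ, hb⟩ := Metric.eventually_nhds_iff.1 hc'
    obtain ⟨k₁, hk₁⟩ := exists_nat_gt c
    obtain ⟨k₂, hk₂⟩ := exists_nat_one_div_lt hδ
    refine mem_iUnion.2 ⟨max k₁ k₂, mem_iInter.2 fun y => ?_⟩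
    rcases le_or_gt (1 / (((max k₁ k₂ : ℕ) : ℝ) + 1)) |y - x| with h | h
    · exact Or.inl h
    · right
      have h2 : |y - x| < δ := by
        refine h.trans_le (le_trans ?_ hk₂.le)
        apply one_div_le_one_div_of_le (by positivity)
        have : (k₂ : ℝ) ≤ ((max k₁ k₂ : ℕ) : ℝ) := by exact_mod_cast le_max_right _ _
        linarith
      have h3 := hb (y := y) (by rw [Real.dist_eq]; exact h2)
      simp only [Real.norm_eq_abs] at h3
      show |g y - g x| ≤ ((max k₁ k₂ : ℕ) : ℝ) * |y - x|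
      refine h3.trans (mul_le_mul_of_nonneg_right ?_ (abs_nonneg _))
      have : (k₁ : ℝ) ≤ ((max k₁ k₂ : ℕ) : ℝ) := by exact_mod_cast le_max_left _ _
      linarith
  obtain ⟨k, x₀, hx₀⟩ := nonempty_interior_of_iUnion_of_closed hc hU
  refine ⟨x₀, k, ?_⟩
  filter_upwards [isOpen_interior.mem_nhds hx₀] with y hy
  have hyE : y ∈ E k := interior_subset hy
  rw [← Real.norm_eq_abs]
  refine norm_deriv_le_of_lip' (by positivity) ?_
  have hr : (0 : ℝ) < 1 / ((k : ℝ) + 1) := by positivity
  filter_upwards [Metric.ball_mem_nhds y hr] with z hz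
  rcases mem_iInter.1 hyE z with h | h
  · rw [Metric.mem_ball, Real.dist_eq] at hz
    exact absurd hz (not_lt.2 h)
  · exact h

/-- Products of two derivatives of positive order at most `m`. -/
def prods (f : ℝ → ℝ) (m : ℕ) : Set (ℝ → ℝ) :=
  {w | ∃ i j, 1 ≤ i ∧ i ≤ m ∧ 1 ≤ j ∧ j ≤ m ∧
    w = fun x => iteratedDeriv i f x * iteratedDeriv j f x}

theorem prods_diff {f : ℝ → ℝ} {n : ℕ} (hf : ∀ k < n, Differentiable ℝ (iteratedDeriv k f))
    {m : ℕ} (hm : m < n) {w : ℝ → ℝ} (hw : w ∈ Submodule.span ℝ (prods f m)) :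
    Differentiable ℝ w ∧ deriv w ∈ Submodule.span ℝ (prods f (m + 1)) := by
  induction hw using Submodule.span_induction with
  | mem w h =>
    obtain ⟨i, j, hi, him, hj, hjm, rfl⟩ := h
    have d1 := hf i (by omega)
    have d2 := hf j (by omega)
    refine ⟨d1.mul d2, ?_⟩
    have e : deriv (fun x => iteratedDeriv i f x * iteratedDeriv j f x) =
        (fun x => iteratedDeriv (i + 1) f x * iteratedDeriv j f x) +
        (fun x => iteratedDeriv i f x * iteratedDeriv (j + 1) f x) := by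
      ext x
      rw [deriv_fun_mul (d1 x) (d2 x)]
      simp only [iteratedDeriv_succ, Pi.add_apply]
    rw [e]
    exact Submodule.add_mem _ (Submodule.subset_span ⟨i + 1, j, by omega, by omega, hj, by omega, rfl⟩)
      (Submodule.subset_span ⟨i, j + 1, hi, by omega, by omega, by omega, rfl⟩)
  | zero => exact ⟨differentiable_const 0, by
      have : deriv (0 : ℝ → ℝ) = 0 := by ext x; simp
      rw [this]; exact Submodule.zero_mem _⟩
  | add u v _ _ hu hv =>
    refine ⟨hu.1.add hv.1, ?_⟩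
    have e : deriv (u + v) = deriv u + deriv v := by
      ext x; exact deriv_add (hu.1 x) (hv.1 x)
    rw [e]; exact Submodule.add_mem _ hu.2 hv.2
  | smul a u _ hu =>
    refine ⟨hu.1.const_smul a, ?_⟩
    have e : deriv (a • u) = a • deriv u := by
      ext x; exact deriv_const_smul a (hu.1 x)
    rw [e]; exact Submodule.smul_mem _ _ hu.2

/-- The derivatives of `f ^ 2 - 2 c f`. -/
theorem leibniz {f : ℝ → ℝ} {n : ℕ} (hf : ∀ k < n, Differentiable ℝ (iteratedDeriv k f)) (c : ℝ) :
    ∀ m, m + 1 ≤ n → ∃ w ∈ Submodule.span ℝ (prods f m),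
      iteratedDeriv (m + 1) (fun x => f x ^ 2 - 2 * c * f x) =
        fun x => 2 * (f x - c) * iteratedDeriv (m + 1) f x + w x := by
  intro m
  induction m with
  | zero =>
    intro hn
    refine ⟨0, Submodule.zero_mem _, ?_⟩
    have d0 : Differentiable ℝ f := by simpa using hf 0 (by omega)
    ext x
    rw [zero_add, iteratedDeriv_one, iteratedDeriv_one]
    have h := (d0 x).hasDerivAt
    have h2 := ((h.pow 2).sub (h.const_mul (2 * c))).deriv
    have e : deriv (fun x => f x ^ 2 - 2 * c * f x) x = deriv (f ^ 2 - fun y => 2 * c * f y) x := rfl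
    rw [e, h2]
    simp
    ring
  | succ m ih =>
    intro hn
    obtain ⟨w, hw, hE⟩ := ih (by omega)
    obtain ⟨hwd, hwm⟩ := prods_diff hf (by omega) hw
    have d0 : Differentiable ℝ f := by simpa using hf 0 (by omega)
    have d1 := hf (m + 1) (by omega)
    refine ⟨(2 : ℝ) • (fun x => iteratedDeriv 1 f x * iteratedDeriv (m + 1) f x) + deriv w,
      Submodule.add_mem _ (Submodule.smul_mem _ _ (Submodule.subset_span
        ⟨1, m + 1, le_refl _, by omega, by omega, le_refl _, rfl⟩)) hwm, ?_⟩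
    rw [iteratedDeriv_succ, hE]
    ext x
    have h0 := (d0 x).hasDerivAt
    have h1 := (d1 x).hasDerivAt
    have h2 := (hwd x).hasDerivAt
    have h3 := ((((h0.sub_const c).const_mul 2).mul h1).add h2).deriv
    have e : deriv (fun x => 2 * (f x - c) * iteratedDeriv (m + 1) f x + w x) x =
      deriv ((fun y => 2 * (f y - c)) * iteratedDeriv (m + 1) f + w) x := rfl
    rw [e, h3]
    simp only [Pi.add_apply, Pi.smul_apply, smul_eq_mul, iteratedDeriv_one, iteratedDeriv_succ (n := m + 1)]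
    ring

/-- The main observation. -/
theorem main {f : ℝ → ℝ} {n : ℕ} (hn : 1 ≤ n) (hf : ∀ k < n, Differentiable ℝ (iteratedDeriv k f)) :
    ∃ c : ℝ, (fun x => f x ^ 2 - 2 * c * f x) ∉ A n := by
  obtain ⟨m, rfl⟩ : ∃ m, n = m + 1 := ⟨n - 1, by omega⟩
  obtain ⟨x₀, K, hK⟩ := locally_bounded (hf m (by omega))
  refine ⟨f x₀, fun hA => ?_⟩
  obtain ⟨w, hw, hE⟩ := leibniz hf (f x₀) m le_rfl
  obtain ⟨hwd, -⟩ := prods_diff hf (by omega) hw
  have d0 : Differentiable ℝ f := by simpa using hf 0 (by omega)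
  obtain ⟨c1, h1⟩ := (d0 x₀).hasDerivAt.isBigO_sub.bound
  obtain ⟨c2, h2⟩ := (hwd x₀).hasDerivAt.isBigO_sub.bound
  have hH := hA.2 x₀ 1 one_pos (2 * c1 * K + c2)
  rw [hE] at hH
  apply hH
  have hK' := hK.filter_mono (nhdsWithin_le_nhds (s := {x₀}ᶜ))
  have h1' := h1.filter_mono (nhdsWithin_le_nhds (s := {x₀}ᶜ))
  have h2' := h2.filter_mono (nhdsWithin_le_nhds (s := {x₀}ᶜ))
  filter_upwards [hK', h1', h2', self_mem_nhdsWithin] with y a b d hy
  simp only [Real.norm_eq_abs] at b d
  have hy0 : 0 < |y - x₀| := abs_pos.2 (sub_ne_zero.2 hy)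
  rw [Real.rpow_one, not_lt, div_le_iff₀ hy0]
  rw [← iteratedDeriv_succ] at a
  have e : 2 * (f y - f x₀) * iteratedDeriv (m + 1) f y + w y -
      (2 * (f x₀ - f x₀) * iteratedDeriv (m + 1) f x₀ + w x₀) =
      2 * ((f y - f x₀) * iteratedDeriv (m + 1) f y) + (w y - w x₀) := by ring
  rw [e]
  calc |2 * ((f y - f x₀) * iteratedDeriv (m + 1) f y) + (w y - w x₀)|
      ≤ |2 * ((f y - f x₀) * iteratedDeriv (m + 1) f y)| + |w y - w x₀| := abs_add_le _ _
    _ = 2 * (|f y - f x₀| * |iteratedDeriv (m + 1) f y|) + |w y - w x₀| := by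
        rw [abs_mul, abs_mul, abs_two]
    _ ≤ 2 * ((c1 * |y - x₀|) * K) + c2 * |y - x₀| := by
        have h0 : 0 ≤ c1 * |y - x₀| := (abs_nonneg _).trans b
        have := mul_le_mul b a (abs_nonneg _) h0
        linarith
    _ = (2 * c1 * K + c2) * |y - x₀| := by ring

/-- For no `n ≥ 1` and no nonzero cardinal `κ` (such as the continuum) the set of the functions with
a nowhere Hölder `n`-th derivative is strongly `κ`-algebrable. -/
theorem result : ∀ n : ℕ, 1 ≤ n → ∀ κ : Cardinal.{0}, κ ≠ 0 → ¬ StronglyAlgebrable κ (A n) := by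
  rintro n hn κ hκ ⟨X, hX, h⟩
  have hne : X.Nonempty := by
    by_contra hempty
    rw [Set.not_nonempty_iff_eq_empty] at hempty
    subst hempty
    apply hκ
    rw [← hX]
    simp
  obtain ⟨f, hfX⟩ := hne
  have hinj : Function.Injective (fun _ : Fin 1 => f) := fun a b _ => Subsingleton.elim a b
  have hf := (h 1 le_rfl (fun _ => f) hinj (fun _ => hfX) (MvPolynomial.X 0)
    (MvPolynomial.X_ne_zero 0) (by simp)).2
  rw [MvPolynomial.aeval_X] at hf
  obtain ⟨c, hc⟩ := main hn hf.1
  apply hc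
  have hP : (MvPolynomial.X 0 ^ 2 - MvPolynomial.C (2 * c) * MvPolynomial.X 0 :
      MvPolynomial (Fin 1) ℝ) ≠ 0 := by
    intro h0
    have h1 := congrArg (MvPolynomial.eval (fun _ => (1 : ℝ))) h0
    have h2 := congrArg (MvPolynomial.eval (fun _ => (-1 : ℝ))) h0
    simp at h1 h2
    linarith
  have hq := (h 1 le_rfl (fun _ => f) hinj (fun _ => hfX) _ hP (by simp)).2
  have e : MvPolynomial.aeval (fun _ : Fin 1 => f)
      (MvPolynomial.X 0 ^ 2 - MvPolynomial.C (2 * c) * MvPolynomial.X 0 : MvPolynomial (Fin 1) ℝ) =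
      fun x => f x ^ 2 - 2 * c * f x := by
    ext x
    simp [Algebra.algebraMap_eq_smul_one]
    ring
  rwa [e] at hq

end Pool.Agent.Results.MP_4d07cf_an.NotAlgebrable
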